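import Mathlib

/-!
# Orbits of the correlation map stay away from the all-ones matrix

For every correlation matrix `A` of size `n ≥ 2` other than the all-ones matrix, each row of the
image `C(A)` contains an entry which is at most `1 - 2 / (n (n - 1))`.  Hence the all-ones matrix is
not an accumulation point of any orbit.
-/

set_option autoImplicit false

open Filter Topology

namespace Pool.Agent.Results.MP_3f07b9_an.OrbitsStayAway

/-- The mean of the entries of a vector. -/
noncomputable def mean {m : ℕ} (x : Fin m → ℝ) : ℝ := (∑ k, x k) / m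

/-- The Pearson correlation of two vectors. -/
noncomputable def corr {m : ℕ} (x y : Fin m → ℝ) : ℝ :=
  (∑ k, (x k - mean x) * (y k - mean y)) /
    √((∑ k, (x k - mean x) ^ 2) * ∑ k, (y k - mean y) ^ 2)

/-- The correlation map: the entry `(i, j)` is the correlation of the rows `i` and `j`. -/
noncomputable def corrMap {n : ℕ} (A : Matrix (Fin n) (Fin n) ℝ) : Matrix (Fin n) (Fin n) ℝ :=
  Matrix.of fun i j => corr (A i) (A j)

/-- The elliptope: symmetric positive semidefinite matrices with unit diagonal. -/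
def elliptope (n : ℕ) : Set (Matrix (Fin n) (Fin n) ℝ) := {A | A.PosSemidef ∧ ∀ i, A i i = 1}

/-- The all-ones matrix. -/
def ones (n : ℕ) : Matrix (Fin n) (Fin n) ℝ := Matrix.of fun _ _ => 1

/-- The correlation matrices other than the all-ones matrix. -/
def nd (n : ℕ) : Set (Matrix (Fin n) (Fin n) ℝ) := elliptope n \ {ones n}

section vec

variable {n : ℕ}

lemma sum_sub_mean (hn : 0 < n) (x : Fin n → ℝ) : ∑ k, (x k - mean x) = 0 := by
  have h : (n : ℝ) ≠ 0 := by positivity
  simp only [Finset.sum_sub_distrib, Finset.sum_const, Finset.card_univ, Fintype.card_fin,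
    nsmul_eq_mul, mean]
  field_simp
  ring

/-- A vector with sum zero and square sum `q` has an entry `M` with `q ≤ n (n-1) M²` as
its maximum. -/
lemma max_bound (u : Fin n → ℝ) (h0 : ∑ k, u k = 0) (j : Fin n) (hj : ∀ k, u k ≤ u j) :
    ∑ k, u k ^ 2 ≤ (n : ℝ) * (n - 1) * u j ^ 2 ∧ 0 ≤ u j := by
  have hcard : ∑ _k : Fin n, u j = n * u j := by simp
  have hM : 0 ≤ u j := by
    have h1 : ∑ k, u k ≤ ∑ _k : Fin n, u j := Finset.sum_le_sum fun k _ => hj k
    rw [h0, hcard] at h1
    have hn : 0 < n := j.pos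
    have : (0:ℝ) < n := by exact_mod_cast hn
    nlinarith
  refine ⟨?_, hM⟩
  have hlow : ∀ k, -((n : ℝ) - 1) * u j ≤ u k := by
    intro k
    have h1 : ∑ l, u l = u k + ∑ l ∈ Finset.univ.erase k, u l := by
      rw [Finset.add_sum_erase _ _ (Finset.mem_univ k)]
    have h2 : ∑ l ∈ Finset.univ.erase k, u l ≤ ∑ _l ∈ Finset.univ.erase k, u j :=
      Finset.sum_le_sum fun l _ => hj l
    have h3 : ∑ _l ∈ Finset.univ.erase k, u j = ((n : ℝ) - 1) * u j := by
      rw [Finset.sum_const, Finset.card_erase_of_mem (Finset.mem_univ k), Finset.card_univ,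
        Fintype.card_fin, nsmul_eq_mul, Nat.cast_sub k.pos]
      simp
    rw [h3] at h2
    rw [h0] at h1
    linarith
  have hpos : 0 ≤ ∑ k, (u j - u k) * (u k + (n - 1) * u j) := by
    refine Finset.sum_nonneg fun k _ => mul_nonneg ?_ ?_
    · have := hj k; linarith
    · have := hlow k; linarith
  have hexp : ∑ k, (u j - u k) * (u k + (n - 1) * u j)
      = (n : ℝ) * (n - 1) * u j ^ 2 - ∑ k, u k ^ 2 := by
    have : ∀ k, (u j - u k) * (u k + ((n:ℝ) - 1) * u j)
        = (u j - (n - 1) * u j) * u k + ((n - 1) * u j ^ 2 - u k ^ 2) := fun k => by ring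
    simp only [this]
    rw [Finset.sum_add_distrib, ← Finset.mul_sum, h0, Finset.sum_sub_distrib, Finset.sum_const,
      Finset.card_univ, Fintype.card_fin, nsmul_eq_mul]
    ring
  linarith

lemma min_bound (u : Fin n → ℝ) (h0 : ∑ k, u k = 0) (j : Fin n) (hj : ∀ k, u j ≤ u k) :
    ∑ k, u k ^ 2 ≤ (n : ℝ) * (n - 1) * u j ^ 2 ∧ u j ≤ 0 := by
  have h := max_bound (fun k => - u k) (by simp [h0]) j (fun k => by simpa using hj k)
  simpa using h

/-- The key estimate: two unit vectors with sum zero, one minimal and one maximal at the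
same place, are not too close. -/
lemma key {u v : Fin n → ℝ} (hn : 2 ≤ n) (hu0 : ∑ k, u k = 0) (hv0 : ∑ k, v k = 0)
    (hu1 : ∑ k, u k ^ 2 = 1) (hv1 : ∑ k, v k ^ 2 = 1) (j : Fin n) (hju : ∀ k, u j ≤ u k)
    (hjv : ∀ k, v k ≤ v j) : ∑ k, u k * v k ≤ 1 - 2 / ((n : ℝ) * (n - 1)) := by
  have hn' : (2:ℝ) ≤ n := by exact_mod_cast hn
  have hN : (0:ℝ) < (n:ℝ) * (n - 1) := by nlinarith
  obtain ⟨a1, a2⟩ := min_bound u hu0 j hju
  obtain ⟨b1, b2⟩ := max_bound v hv0 j hjv
  rw [hu1] at a1
  rw [hv1] at b1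
  set N : ℝ := (n:ℝ) * (n - 1) with hNdef
  -- (v j - u j)² ≥ 4 / N
  have h4 : 4 / N ≤ (v j - u j) ^ 2 := by
    rw [div_le_iff₀ hN]
    have h5 : 1 ≤ (N * (v j * (-u j))) ^ 2 ∨ True := Or.inr trivial
    have h6 : 1 ≤ N * (v j * (-u j)) := by
      have h7 : 0 ≤ N * (v j * (-u j)) := by
        have : 0 ≤ v j * (-u j) := mul_nonneg b2 (by linarith)
        positivity
      have h8 : 1 * 1 ≤ (N * u j ^ 2) * (N * v j ^ 2) :=
        mul_le_mul a1 b1 zero_le_one (by linarith)
      nlinarith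
    nlinarith
  have hsq : (v j - u j) ^ 2 ≤ ∑ k, (v k - u k) ^ 2 :=
    Finset.single_le_sum (f := fun k => (v k - u k) ^ 2) (fun k _ => sq_nonneg _)
      (Finset.mem_univ j)
  have hexp : ∑ k, (v k - u k) ^ 2 = 2 - 2 * ∑ k, u k * v k := by
    have : ∀ k, (v k - u k) ^ 2 = v k ^ 2 + u k ^ 2 - 2 * (u k * v k) := fun k => by ring
    simp only [this, Finset.sum_sub_distrib, Finset.sum_add_distrib, ← Finset.mul_sum, hu1, hv1]
    ring
  have : 4 / N = 2 * (2 / N) := by ring
  linarith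

end vec

section mat

variable {n : ℕ}

lemma entry_symm {A : Matrix (Fin n) (Fin n) ℝ} (hA : A ∈ elliptope n) (i j : Fin n) :
    A i j = A j i := by
  have h := hA.1.1
  have := congrFun (congrFun h j) i
  simpa [Matrix.conjTranspose_apply] using this

lemma quad {A : Matrix (Fin n) (Fin n) ℝ} (hA : A ∈ elliptope n) (i j : Fin n) :
    (Pi.single i (1:ℝ) - Pi.single j 1 : Fin n → ℝ) ⬝ᵥ
      (A.mulVec (Pi.single i (1:ℝ) - Pi.single j 1)) = 2 - 2 * A i j := by
  rw [Matrix.mulVec_sub, sub_dotProduct, dotProduct_sub, dotProduct_sub]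
  simp only [Matrix.mulVec_single_one, single_dotProduct, one_mul, Matrix.col_apply]
  rw [hA.2 i, hA.2 j, entry_symm hA j i]
  ring

lemma entry_le {A : Matrix (Fin n) (Fin n) ℝ} (hA : A ∈ elliptope n) (i j : Fin n) :
    A i j ≤ 1 := by
  have h := hA.1.dotProduct_mulVec_nonneg (Pi.single i (1:ℝ) - Pi.single j 1 : Fin n → ℝ)
  rw [star_trivial, quad hA] at h
  linarith

/-- Only the all-ones matrix of the elliptope has a constant row. -/
lemma eq_ones {A : Matrix (Fin n) (Fin n) ℝ} (hA : A ∈ elliptope n) (i : Fin n)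
    (hi : ∀ j, A i j = 1) : A = ones n := by
  have hcol : ∀ j k, A k i = A k j := by
    intro j k
    have h1 : star (Pi.single i (1:ℝ) - Pi.single j 1 : Fin n → ℝ) ⬝ᵥ
      (A.mulVec (Pi.single i (1:ℝ) - Pi.single j 1)) = 0 := by
      rw [star_trivial, quad hA, hi j]; norm_num
    have h2 := (hA.1.dotProduct_mulVec_zero_iff _).1 h1
    have h3 := congrFun h2 k
    rw [Matrix.mulVec_sub] at h3
    simp only [Matrix.mulVec_single_one, Matrix.col_apply, Pi.sub_apply, Pi.zero_apply] at h3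
    linarith
  ext k j
  rw [← hcol j k, entry_symm hA, hi k]
  rfl

/-- The square sum of a centred row. -/
noncomputable def ss (x : Fin n → ℝ) : ℝ := ∑ k, (x k - mean x) ^ 2

lemma ss_pos {A : Matrix (Fin n) (Fin n) ℝ} (hA : A ∈ nd n) (i : Fin n) : 0 < ss (A i) := by
  have h0 : 0 ≤ ss (A i) := Finset.sum_nonneg fun k _ => sq_nonneg _
  rcases h0.lt_or_eq with h | h
  · exact h
  · exfalso
    have h1 : ∀ k, A i k = mean (A i) := by
      intro k
      have := (Finset.sum_eq_zero_iff_of_nonneg (s := Finset.univ)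
        (f := fun k => (A i k - mean (A i)) ^ 2) (fun k _ => sq_nonneg _)).1 h.symm k
        (Finset.mem_univ k)
      have := pow_eq_zero_iff (two_ne_zero) |>.1 this
      linarith
    apply hA.2
    apply eq_ones hA.1 i
    intro j
    rw [h1 j, ← h1 i, hA.1.2 i]

/-- The normalised centred row. -/
noncomputable def un (x : Fin n → ℝ) : Fin n → ℝ := fun k => (x k - mean x) / √(ss x)

lemma un_sum (hn : 0 < n) (x : Fin n → ℝ) : ∑ k, un x k = 0 := by
  simp only [un, ← Finset.sum_div, sum_sub_mean hn, zero_div]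

lemma un_sq {x : Fin n → ℝ} (hx : 0 < ss x) : ∑ k, un x k ^ 2 = 1 := by
  simp only [un, div_pow, ← Finset.sum_div, Real.sq_sqrt hx.le]
  exact div_self hx.ne'

lemma corr_eq {x y : Fin n → ℝ} (hx : 0 < ss x) : corr x y = ∑ k, un x k * un y k := by
  have : ∀ k, un x k * un y k = (x k - mean x) * (y k - mean y) / (√(ss x) * √(ss y)) := by
    intro k
    simp only [un]
    rw [div_mul_div_comm]
  simp only [this, ← Finset.sum_div, corr]
  rw [Real.sqrt_mul (by exact hx.le)]
  rfl

/-- **The row bound.** -/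
lemma row_bound (hn : 2 ≤ n) {A : Matrix (Fin n) (Fin n) ℝ} (hA : A ∈ nd n) (i : Fin n) :
    ∃ j, corrMap A i j ≤ 1 - 2 / ((n : ℝ) * (n - 1)) := by
  haveI : Nonempty (Fin n) := ⟨i⟩
  obtain ⟨j, hj⟩ := Finite.exists_min (un (A i))
  refine ⟨j, ?_⟩
  change corr (A i) (A j) ≤ _
  rw [corr_eq (ss_pos hA i)]
  refine key hn (un_sum (by omega) _) (un_sum (by omega) _) (un_sq (ss_pos hA i))
    (un_sq (ss_pos hA j)) j hj ?_
  intro k
  simp only [un]
  have h1 : A j k ≤ A j j := by rw [hA.1.2 j]; exact entry_le hA.1 j k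
  exact div_le_div_of_nonneg_right (by linarith) (Real.sqrt_nonneg _)

lemma corrMap_mem (hn : 2 ≤ n) {A : Matrix (Fin n) (Fin n) ℝ} (hA : A ∈ nd n) :
    corrMap A ∈ nd n := by
  refine ⟨⟨?_, ?_⟩, ?_⟩
  · -- positive semidefinite: a Gram matrix
    have h : corrMap A = (Matrix.of fun i k => un (A i) k) *
        (Matrix.of fun i k => un (A i) k).conjTranspose := by
      ext i j
      rw [Matrix.mul_apply]
      change corr (A i) (A j) = _
      rw [corr_eq (ss_pos hA i)]
      simp [Matrix.conjTranspose_apply]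
    rw [h]
    exact Matrix.posSemidef_self_mul_conjTranspose _
  · intro i
    change corr (A i) (A i) = 1
    rw [corr_eq (ss_pos hA i), ← un_sq (ss_pos hA i)]
    exact Finset.sum_congr rfl fun k _ => by ring
  · intro h
    have hi : Fin n := ⟨0, by omega⟩
    obtain ⟨j, hj⟩ := row_bound hn hA hi
    rw [Set.mem_singleton_iff.1 h] at hj
    have hn' : (2:ℝ) ≤ n := by exact_mod_cast hn
    have hN : (0:ℝ) < (n:ℝ) * (n - 1) := by nlinarith
    have : 0 < 2 / ((n : ℝ) * (n - 1)) := by positivity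
    have h1 : ones n hi j = 1 := rfl
    linarith

lemma iter_mem (hn : 2 ≤ n) {A : Matrix (Fin n) (Fin n) ℝ} (hA : A ∈ nd n) (k : ℕ) :
    corrMap^[k] A ∈ nd n := by
  induction k with
  | zero => exact hA
  | succ k ih => rw [Function.iterate_succ_apply']; exact corrMap_mem hn ih

end mat

/-- For every `n ≥ 2` and every correlation matrix `A ≠ 𝟏𝟏ᵀ` of size `n`: the orbit of `A` under the
correlation map stays among the correlation matrices different from `𝟏𝟏ᵀ`; from the first step
on, each row of each matrix of the orbit has an entry at most `1 - 2 / (n (n - 1))`; hence, some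
`δ > 0` is at most the largest entry of `|A_k - 𝟏𝟏ᵀ|` for all `k ≥ 0`, and `𝟏𝟏ᵀ` is not an
accumulation point of the orbit. -/
theorem result : ∀ n : ℕ, 2 ≤ n → ∀ A ∈ nd n,
    (∀ k : ℕ, corrMap^[k] A ∈ nd n) ∧
    (∀ k : ℕ, 1 ≤ k → ∀ i, ∃ j, (corrMap^[k] A) i j ≤ 1 - 2 / ((n : ℝ) * (n - 1))) ∧
    (∃ δ : ℝ, 0 < δ ∧ ∀ k : ℕ, ∃ i j, δ ≤ |(corrMap^[k] A) i j - ones n i j|) ∧
    ¬ MapClusterPt (ones n) atTop (fun k : ℕ => corrMap^[k] A) := by
  intro n hn A hA
  have hn' : (2:ℝ) ≤ n := by exact_mod_cast hn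
  have hN : (0:ℝ) < (n:ℝ) * (n - 1) := by nlinarith
  have hε : 0 < 2 / ((n : ℝ) * (n - 1)) := by positivity
  have hrow : ∀ k : ℕ, 1 ≤ k → ∀ i, ∃ j, (corrMap^[k] A) i j ≤ 1 - 2 / ((n : ℝ) * (n - 1)) := by
    intro k hk i
    obtain ⟨l, rfl⟩ := Nat.exists_eq_add_of_le' hk
    rw [Function.iterate_succ_apply']
    exact row_bound hn (iter_mem hn hA l) i
  let i0 : Fin n := ⟨0, by omega⟩
  refine ⟨iter_mem hn hA, hrow, ?_, ?_⟩
  · -- the zeroth matrix is different from the all-ones matrix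
    obtain ⟨i, j, hij⟩ : ∃ i j, A i j ≠ ones n i j := by
      by_contra hcon
      push Not at hcon
      exact hA.2 (Matrix.ext hcon)
    refine ⟨min |A i j - ones n i j| (2 / ((n : ℝ) * (n - 1))),
      lt_min (abs_pos.2 (sub_ne_zero.2 hij)) hε, fun k => ?_⟩
    rcases Nat.eq_zero_or_pos k with rfl | hk
    · exact ⟨i, j, min_le_left _ _⟩
    · obtain ⟨j', hj'⟩ := hrow k hk i0
      refine ⟨i0, j', (min_le_right _ _).trans ?_⟩
      have h1 : ones n i0 j' = 1 := rfl
      rw [h1, abs_sub_comm]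
      exact le_trans (by linarith) (le_abs_self _)
  · intro hcl
    -- an open neighbourhood of the all-ones matrix which the orbit avoids
    have hopen : IsOpen {B : Matrix (Fin n) (Fin n) ℝ |
        ∀ j, 1 - 2 / ((n : ℝ) * (n - 1)) < B i0 j} := by
      rw [Set.setOf_forall]
      refine isOpen_iInter_of_finite fun j => ?_
      exact isOpen_lt continuous_const (continuous_apply_apply i0 j)
    have hmem : {B : Matrix (Fin n) (Fin n) ℝ |
        ∀ j, 1 - 2 / ((n : ℝ) * (n - 1)) < B i0 j} ∈ 𝓝 (ones n) :=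
      hopen.mem_nhds fun j => by
        change 1 - 2 / ((n : ℝ) * (n - 1)) < 1
        linarith
    have hfreq := hcl.frequently hmem
    obtain ⟨k, hk, hk1⟩ := (hfreq.and_eventually (eventually_ge_atTop 1)).exists
    obtain ⟨j, hj⟩ := hrow k hk1 i0
    have := hk j
    linarith

end Pool.Agent.Results.MP_3f07b9_an.OrbitsStayAway
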